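import Pool.Agent.Lib.MP_eace5d_co.Main

/-!
# A graph with an edge is (3,6)-tight if and only if it has property (P)

The hard direction: for an edge `e = xy` of a (3,6)-tight graph, let `M₁` be the (2,3)-sparsity
matroid of the graph contracted (as a matroid) by `e`, and `M₂` the (2,3)-sparsity matroid of the
graph in which `x` and `y` are identified, both on the edges different from `e`. The matroid
partition theorem, applied to the doubled edge set and `M₁, M₂, M₂`, reduces the claim to
`2 |F| ≤ r₁(F) + 2 r₂(F)` for all `F`, which is proved with optimal covers.
-/

namespace Pool.Agent.Results.MP_eace5d_co.TightIffP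

open Pool.Agent.Lib.MP_eace5d_co

theorem result {V : Type*} [Finite V] (G : SimpleGraph V) (hG : G.edgeSet.Nonempty) :
    GraphTight 3 6 G.edgeSet ↔ PropertyP G :=
  ⟨P_of_tight G, tight_of_P G hG⟩

end Pool.Agent.Results.MP_eace5d_co.TightIffP
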